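import Pool.Agent.T2h81.EA.C2

set_option autoImplicit false

/-!
# The exceptional points of the Möbius exponential sum

Let `F_R(x) = ∑_{n ≤ R} μ(n) e(nx)`. The question is whether `F_R(x) = O(R^a)` for all `a > 1/2`, uniformly in `x`.
Here we consider the set of the points `x` at which such a bound fails, unconditionally and for all exponents `a`.

(1) For `0 ≤ a ≤ 1` the bound `F_R(x) = O(R^a)` holds for all `x` outside a set of Hausdorff dimension at most
`2 (1 - a)`; more precisely, outside such a set it holds at all points `r x + t`, `r ≠ 0` and `t` rational, so that it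
also holds for the sums over residue classes and with Dirichlet characters.

(2) Let `ν` be a measure such that the measure of the balls of radius `ρ ≤ ρ₀` is at most `C ρ^s`. Then for `ν`-almost
all `x` the bound `F_R(x) = O(R^a)` holds for all `a > 1 - s/2`, again at all points `r x + t`. (The natural measure
on Cantor's set has `s = log 2 / log 3`, so that `1 - s/2 = 0.684...`.)

(3) The finite form: of the `2^k` intervals `[j / 2^k, (j + 1) / 2^k]` at most `14 (k + 1)² 4^k / A²` contain a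
point `x` with `|F_R(x)| > A` for some `R ≤ 2^k`.

Method: a maximal large sieve inequality (Gallagher's argument for each dyadic block, and the argument of Rademacher
and Menshov), which implies (3); then coverings and the lemma of Borel and Cantelli.
-/

namespace Pool.Agent.Kept.MP_b6b996_nt.ExceptionalPoints

open Filter Topology MeasureTheory

/-- The Möbius exponential sum `F_R(x) = ∑_{n=1}^R μ(n) e^{2πinx}`. -/
noncomputable def F (R : ℕ) (x : ℝ) : ℂ :=
  ∑ n ∈ Finset.Icc 1 R, ((ArithmeticFunction.moebius n : ℤ) : ℂ) *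
    Complex.exp (2 * Real.pi * Complex.I * n * x)

/-- `F_R(x) = O(R^a)` at the point `x`. -/
def Bounded (a x : ℝ) : Prop := ∃ C : ℝ, ∀ R : ℕ, ‖F R x‖ ≤ C * (R : ℝ) ^ a

/-- The `j` such that the interval `[j / 2^k, (j + 1) / 2^k]` contains a point `x` with `|F_R(x)| > A` for some
`R ≤ 2^k`. -/
def badCells (k : ℕ) (A : ℝ) : Set ℕ := {j | j < 2 ^ k ∧
  ∃ x ∈ Set.Icc ((j : ℝ) / 2 ^ k) ((j + 1) / 2 ^ k), ∃ R : ℕ, R ≤ 2 ^ k ∧ A < ‖F R x‖}

/-- the coefficients -/
noncomputable def b (n : ℕ) : ℂ := ((ArithmeticFunction.moebius n : ℤ) : ℂ)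

lemma b_le (n : ℕ) : ‖b n‖ ≤ 1 := by
  unfold b
  rw [Complex.norm_intCast]
  have := ArithmeticFunction.abs_moebius_le_one (n := n)
  exact_mod_cast this

lemma V_eq (R : ℕ) (x : ℝ) : Pool.Agent.T2h81.EA.V b R x = ‖F R x‖ := rfl

lemma Bounded_iff (a x : ℝ) : Bounded a x ↔ Pool.Agent.T2h81.EA.Bd b a x := Iff.rfl

lemma F_add_int (R : ℕ) (x : ℝ) (m : ℤ) : F R (x + m) = F R x := by
  unfold F
  apply Finset.sum_congr rfl
  intro n _
  congr 1
  have h : (2 * Real.pi * Complex.I * n * ((x + m : ℝ) : ℂ) : ℂ) =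
      2 * Real.pi * Complex.I * n * x + ((n * m : ℤ) : ℂ) * (2 * Real.pi * Complex.I) := by
    push_cast
    ring
  rw [h, Complex.exp_add, Complex.exp_int_mul_two_pi_mul_I, mul_one]

lemma Bounded_add_int (a x : ℝ) (m : ℤ) : Bounded a (x + m) ↔ Bounded a x := by
  unfold Bounded
  simp only [F_add_int]

lemma mono {a a' x : ℝ} (h : a ≤ a') (ha : 0 < a) (hx : Bounded a x) : Bounded a' x := by
  obtain ⟨C, hC⟩ := hx
  refine ⟨|C|, fun R => (hC R).trans ?_⟩
  rcases Nat.eq_zero_or_pos R with h0 | h0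
  · subst h0
    rw [Nat.cast_zero, Real.zero_rpow ha.ne', mul_zero]
    positivity
  · have h1 : (1 : ℝ) ≤ R := by exact_mod_cast h0
    have h2 : (R : ℝ) ^ a ≤ (R : ℝ) ^ a' := Real.rpow_le_rpow_of_exponent_le h1 h
    have h3 : (0 : ℝ) ≤ (R : ℝ) ^ a := by positivity
    calc C * (R : ℝ) ^ a ≤ |C| * (R : ℝ) ^ a := by
          gcongr
          exact le_abs_self C
      _ ≤ _ := by gcongr

/-- affine images -/
lemma dim_affine (c d : ℝ) (S : Set ℝ) : dimH ((fun y : ℝ => c * y + d) '' S) ≤ dimH S := by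
  have h : LipschitzWith ‖c‖₊ (fun y : ℝ => c * y + d) := by
    apply LipschitzWith.of_dist_le_mul
    intro x y
    rw [Real.dist_eq, Real.dist_eq, coe_nnnorm, Real.norm_eq_abs, ← abs_mul]
    apply le_of_eq
    congr 1
    ring
  exact h.dimH_image_le S

/-- every point is an integer translate of a point of `[0, 1]` -/
lemma transl (y : ℝ) : ∃ m : ℤ, 0 ≤ y + m ∧ y + m ≤ 1 := by
  refine ⟨-⌊y⌋, ?_, ?_⟩
  · push_cast
    linarith [Int.floor_le y]
  · push_cast
    linarith [Int.lt_floor_add_one y]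

/-- a direction: the Frostman condition is preserved by affine maps -/
lemma frost (ν : Measure ℝ) (C s ρ₀ : ℝ)
    (hν : ∀ x ρ : ℝ, 0 < ρ → ρ ≤ ρ₀ → ν (Metric.closedBall x ρ) ≤ ENNReal.ofReal (C * ρ ^ s)) (c d : ℝ)
    (hc : c ≠ 0) : ∀ x ρ : ℝ, 0 < ρ → ρ ≤ ρ₀ * |c| →
      (ν.map (fun y : ℝ => c * y + d)) (Metric.closedBall x ρ) ≤ ENNReal.ofReal ((C * (1 / |c|) ^ s) * ρ ^ s) := by
  intro x ρ hρ hρ2
  have hc0 : 0 < |c| := abs_pos.2 hc
  rw [Measure.map_apply (by fun_prop) Metric.isClosed_closedBall.measurableSet]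
  have h1 : (fun y : ℝ => c * y + d) ⁻¹' Metric.closedBall x ρ ⊆
      Metric.closedBall ((x - d) / c) (ρ / |c|) := by
    intro y hy
    rw [Set.mem_preimage, Metric.mem_closedBall, Real.dist_eq] at hy
    rw [Metric.mem_closedBall, Real.dist_eq, le_div_iff₀ hc0, ← abs_mul]
    refine le_trans (le_of_eq ?_) hy
    congr 1
    field_simp
    ring
  refine (measure_mono h1).trans ((hν _ _ (by positivity) ?_).trans (le_of_eq ?_))
  · rw [div_le_iff₀ hc0]
    exact hρ2
  · congr 1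
    rw [div_eq_mul_one_div, Real.mul_rpow hρ.le (by positivity)]
    ring

theorem result :
    (∀ a : ℝ, 0 ≤ a → a ≤ 1 →
      dimH {x : ℝ | ∃ r t : ℚ, r ≠ 0 ∧ ¬ Bounded a (r * x + t)} ≤ ENNReal.ofReal (2 * (1 - a))) ∧
    (∀ (ν : Measure ℝ) (C s ρ₀ : ℝ), 0 ≤ s → s ≤ 1 → 0 < ρ₀ →
      (∀ x ρ : ℝ, 0 < ρ → ρ ≤ ρ₀ → ν (Metric.closedBall x ρ) ≤ ENNReal.ofReal (C * ρ ^ s)) →
      ∀ᵐ x ∂ν, ∀ r t : ℚ, r ≠ 0 → ∀ a : ℝ, 1 - s / 2 < a → Bounded a (r * x + t)) ∧
    (∀ (k : ℕ) (A : ℝ), 0 ≤ A → ((badCells k A).ncard : ℝ) * A ^ 2 ≤ 14 * (k + 1) ^ 2 * 4 ^ k) := by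
  refine ⟨?_, ?_, ?_⟩
  · intro a ha ha1
    have h1 : {x : ℝ | ∃ r t : ℚ, r ≠ 0 ∧ ¬ Bounded a (r * x + t)} ⊆
        ⋃ i : ℚ × ℚ × ℤ, (fun y : ℝ => (1 / (i.1 : ℝ)) * y + (-((i.2.1 : ℝ) + i.2.2) / i.1)) ''
          {x : ℝ | 0 ≤ x ∧ x ≤ 1 ∧ ¬ Pool.Agent.T2h81.EA.Bd b a x} := by
      rintro x ⟨r, t, hr, hx⟩
      have hr' : (r : ℝ) ≠ 0 := by exact_mod_cast hr
      obtain ⟨m, hm0, hm1⟩ := transl (r * x + t)
      rw [Set.mem_iUnion]
      refine ⟨(r, t, m), r * x + t + m, ⟨hm0, hm1, ?_⟩, ?_⟩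
      · rw [← Bounded_iff, Bounded_add_int]
        exact hx
      · simp only
        field_simp
        ring
    refine (dimH_mono h1).trans ?_
    rw [dimH_iUnion]
    refine iSup_le fun i => (dim_affine _ _ _).trans ?_
    exact Pool.Agent.T2h81.EA.dim01 b b_le a ha ha1
  · intro ν C s ρ₀ hs hs1 hρ₀ hν
    have h1 : ∀ (r t q : ℚ) (m : ℤ), ∀ᵐ x ∂ν, r ≠ 0 → 1 - s / 2 < (q : ℝ) →
        0 ≤ (r : ℝ) * x + (t + m) → (r : ℝ) * x + (t + m) ≤ 1 → Bounded q (r * x + (t + m)) := by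
      intro r t q m
      by_cases hr : r = 0
      · exact Eventually.of_forall fun x h => absurd hr h
      by_cases hq : 1 - s / 2 < (q : ℝ)
      · have hr' : (r : ℝ) ≠ 0 := by exact_mod_cast hr
        have h2 := Pool.Agent.T2h81.EA.meas01 b b_le q (by linarith)
          (ν.map (fun y : ℝ => (r : ℝ) * y + (t + m))) (C * (1 / |(r : ℝ)|) ^ s) s (ρ₀ * |(r : ℝ)|)
          (by have := abs_pos.2 hr'; positivity) (frost ν C s ρ₀ hν r (t + m) hr') (by linarith)
        have h3 := ae_of_ae_map (by fun_prop) h2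
        filter_upwards [h3] with x hx _ _ h4 h5
        exact hx h4 h5
      · exact Eventually.of_forall fun x _ h => absurd h hq
    have h2 : ∀ᵐ x ∂ν, ∀ (r t q : ℚ) (m : ℤ), r ≠ 0 → 1 - s / 2 < (q : ℝ) →
        0 ≤ (r : ℝ) * x + (t + m) → (r : ℝ) * x + (t + m) ≤ 1 → Bounded q (r * x + (t + m)) := by
      rw [ae_all_iff]
      intro r
      rw [ae_all_iff]
      intro t
      rw [ae_all_iff]
      intro q
      rw [ae_all_iff]
      intro m
      exact h1 r t q m
    filter_upwards [h2] with x hx r t hr a ha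
    obtain ⟨q, hq1, hq2⟩ := exists_rat_btwn ha
    obtain ⟨m, hm0, hm1⟩ := transl (r * x + t)
    have h3 := hx r t q m hr hq1 (by linarith) (by linarith)
    rw [← add_assoc, Bounded_add_int] at h3
    exact mono hq2.le (by linarith) h3
  · intro k A hA
    have h1 := Pool.Agent.T2h81.EA.bad_card b b_le k A hA
    have h2 : badCells k A = ((Pool.Agent.T2h81.EA.bad b k A : Finset ℕ) : Set ℕ) := by
      ext j
      classical
      unfold Pool.Agent.T2h81.EA.bad
      rw [Finset.mem_coe, Finset.mem_filter, Finset.mem_range]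
      exact Iff.rfl
    rw [h2, Set.ncard_coe_finset]
    refine h1.trans (le_of_eq ?_)
    rw [← pow_mul, mul_comm k 2, pow_mul]
    norm_num

end Pool.Agent.Kept.MP_b6b996_nt.ExceptionalPoints
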